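import Mathlib

set_option autoImplicit false

namespace Pool.Agent.H.MP_2d5ed4_an

open Set Filter Topology Metric Polynomial MeasureTheory TopologicalSpace
open scoped Nat

noncomputable section

/-- summable sequences -/
abbrev E := lp (fun _ : ℕ => ℂ) 1

/-- weights -/
def w (n : ℕ) : ℝ := (2 * n)! / (2 * (n + 1))!

theorem ev (n : ℕ) (x : E) : lp.evalCLM ℂ (fun _ : ℕ => ℂ) 1 n x = x n := rfl

theorem exA : ∃ A : E →L[ℂ] E, ∀ x k, A x k = w k * x (k + 1) := by
  have s : Summable fun n => (w n : ℂ) • (lp.singleContinuousLinearMap ℂ (fun _ : ℕ => ℂ) 1 n ∘L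
      lp.evalCLM ℂ (fun _ : ℕ => ℂ) 1 (n + 1)) := .of_norm_bounded ((summable_nat_add_iff 1).2
      (Real.summable_nat_pow_inv.2 one_lt_two)) fun n => ContinuousLinearMap.opNorm_le_bound _ (by positivity) fun x => by
    have : w n ≤ (((n + 1 : ℕ) : ℝ) ^ 2)⁻¹ := by
      rw [w, mul_add, Nat.factorial_succ, Nat.factorial_succ]
      push_cast
      field_simp
      nlinarith
    change ‖(w n : ℂ) • lp.single (E := fun _ : ℕ => ℂ) 1 n (x (n + 1))‖ ≤ _
    rw [norm_smul, lp.norm_single one_pos, Complex.norm_real, Real.norm_of_nonneg (by unfold w; positivity)]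
    exact mul_le_mul this (lp.norm_apply_le_norm one_ne_zero x (n + 1)) (norm_nonneg _) (by positivity)
  refine ⟨_, fun x k => ((s.hasSum.mapL (.apply ℂ _ x)).mapL (lp.evalCLM ℂ _ 1 k)).unique ?_⟩
  change HasSum (fun n => (w n : ℂ) * lp.single (E := fun _ : ℕ => ℂ) 1 n (x (n + 1)) k) _
  simpa using hasSum_single (f := fun n => (w n : ℂ) * lp.single (E := fun _ : ℕ => ℂ) 1 n (x (n + 1)) k) k
    fun n h => by simp [h.symm]

/-- the generator -/
def A : E →L[ℂ] E := exA.choose

theorem hA (x : E) (k : ℕ) : A x k = w k * x (k + 1) := exA.choose_spec x k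

/-- the group -/
def T (z : ℂ) : E →L[ℂ] E := NormedSpace.exp (z • A)

theorem T0 : T 0 = .id ℂ E := by simp [T, ContinuousLinearMap.one_def]

theorem Ta (z u : ℂ) : T (z + u) = T z ∘L T u := by
  let _ := NormedAlgebra.restrictScalars ℚ ℂ (E →L[ℂ] E)
  rw [T, add_smul, NormedSpace.exp_add_of_commute (((Commute.refl A).smul_left z).smul_right u)]
  rfl

theorem Td (x : E) (z : ℂ) : DifferentiableAt ℂ (fun z => T z x) z :=
  (hasDerivAt_exp_smul_const A z).differentiableAt.clm_apply (differentiableAt_const x)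

theorem Ti (z : ℂ) (n : ℕ) (x : E) : (T z)^[n] x = T (n * z) x := by
  induction n with
  | zero => simp [T0]
  | succ n ih => simp [Function.iterate_succ_apply', ih, add_mul, add_comm (n * z), Ta]

theorem Ts (z : ℂ) (x : E) : HasSum (fun j : ℕ => ((j ! : ℂ)⁻¹ * z ^ j) • (A ^ j) x) (T z x) := by
  simpa [_root_.smul_pow, smul_smul, T] using (NormedSpace.exp_series_hasSum_exp' (𝕂 := ℂ) (z • A)).mapL (.apply ℂ _ x)

theorem Tb (z : ℂ) (x : E) : ‖T z x 0‖ ≤ ‖x‖ * Real.exp √‖z‖ := by
  have a : ∀ j n, ‖(A ^ j) x n‖ ≤ ‖x‖ * ((2 * n)! / (2 * (n + j))!) := fun j => by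
    induction j with
    | zero => exact fun n => by simpa [Nat.factorial_ne_zero] using lp.norm_apply_le_norm one_ne_zero x n
    | succ j ih =>
      intro n
      rw [pow_succ', mul_apply_eq_comp, hA, norm_mul, Complex.norm_real, w, Real.norm_of_nonneg
        (by positivity)]
      refine (mul_le_mul_of_nonneg_left (ih _) (by positivity)).trans_eq ?_
      rw [add_right_comm, add_assoc]
      field_simp
  refine (((Ts z x).mapL (lp.evalCLM ℂ _ 1 0)).norm_le_of_bounded ((Real.hasSum_cosh √‖z‖).mul_left ‖x‖)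
    fun j => ?_).trans (mul_le_mul_of_nonneg_left ?_ (norm_nonneg _))
  · have := a j 0
    have b : (j ! : ℝ)⁻¹ ≤ 1 := inv_le_one_of_one_le₀ (mod_cast j.factorial_pos)
    simp only [map_smul, norm_smul, norm_mul, norm_inv, norm_pow, Complex.norm_natCast, pow_mul,
      Real.sq_sqrt (norm_nonneg z)]
    refine (mul_le_mul (mul_le_of_le_one_left (pow_nonneg (norm_nonneg z) j) b) this (norm_nonneg _)
      (pow_nonneg (norm_nonneg z) j)).trans_eq ?_
    simp
    ring
  rw [Real.cosh_eq]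
  linarith [Real.exp_le_exp.2 (neg_le_self (Real.sqrt_nonneg ‖z‖))]

/-- monomials -/
def e (k : ℕ) : E := (k ! * (2 * k)! : ℂ) • lp.single 1 k 1

/-- polynomials -/
def io : ℂ[X] →ₗ[ℂ] E := (basisMonomials ℂ).constr ℂ e

theorem ie (k : ℕ) : io (X ^ k) = e k := monomial_one_right_eq_X_pow (R := ℂ) k ▸ (basisMonomials ℂ).constr_basis ℂ e k

theorem Tp (z : ℂ) (p : ℂ[X]) : T z (io p) = io (taylor z p) := by
  have a : ∀ k, A (e k) = (k : ℂ) • e (k - 1) := fun k => lp.ext (funext fun n => by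
    rcases eq_or_ne k (n + 1) with rfl | h
    · have := Nat.cast_ne_zero (R := ℂ).2 (2 * (n + 1)).factorial_ne_zero
      simp [hA, e, w, Nat.factorial_succ n]
      field_simp
    rcases k with - | k
    · simp [hA, e]
    simp [hA, e, h.symm, show n ≠ k by omega])
  have b : ∀ k j, (A ^ j) (e k) = (k.descFactorial j : ℂ) • e (k - j) := fun k j => by
    induction j with
    | zero => simp
    | succ j ih => simp [pow_succ', ih, a, smul_smul, mul_comm, Nat.sub_sub]
  refine LinearMap.congr_fun ((basisMonomials ℂ).ext (f₁ := (T z).toLinearMap ∘ₗ io) (f₂ := io ∘ₗ taylor z)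
    fun k => ?_) p
  simp only [coe_basisMonomials, monomial_one_right_eq_X_pow, LinearMap.comp_apply, ie, ContinuousLinearMap.coe_coe,
    taylor_pow, taylor_X, add_comm X, add_pow, map_sum]
  refine (Ts z _).unique ?_
  convert hasSum_sum_of_ne_finset_zero (L := .unconditional ℕ) (s := Finset.range (k + 1)) fun j h => ?_ using 2 with j
  · have := Nat.cast_ne_zero (R := ℂ).2 j.factorial_ne_zero
    rw [← C_pow, ← C_eq_natCast, mul_right_comm, ← C_mul, ← smul_eq_C_mul, map_smul, ie, b, smul_smul,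
      Nat.descFactorial_eq_factorial_mul_choose]
    congr 1
    push_cast
    field_simp
  simp [b, Nat.descFactorial_eq_zero_iff_lt.2 (show k < j by simpa using h)]

theorem cont (m k : ℕ) : Continuous fun s : ℂ => io ((C s * X + 1) ^ m * X ^ k) := by
  simp only [add_pow, one_pow, mul_one, Finset.sum_mul, map_sum, ← smul_eq_C_mul, _root_.smul_pow, smul_mul_assoc,
    map_smul]
  exact continuous_finsetSum _ fun _ _ => (continuous_pow _).smul continuous_const

theorem dn {W : Submodule ℂ E} (h : ∀ k, e k ∈ W) : Dense (W : Set E) := fun x =>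
  mem_closure_of_tendsto (lp.hasSum_single (by simp) x) (.of_forall fun s => W.sum_mem fun n _ => by
    simpa [e, smul_smul, Nat.factorial_ne_zero, ← lp.single_smul] using
      W.smul_mem (x n / (n ! * (2 * n)!)) (h n))

/-- vectors reached together with zero -/
def W (z : ℂ) : Submodule ℂ E where
  carrier := {u | ∃ x : ℕ → E, Tendsto x atTop (𝓝 u) ∧ Tendsto (fun n : ℕ => T (n * z) (x n)) atTop (𝓝 0)}
  add_mem' := fun ⟨x, a, b⟩ ⟨y, c, d⟩ => ⟨x + y, a.add c, by simpa using b.add d⟩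
  zero_mem' := ⟨0, tendsto_const_nhds, by simp⟩
  smul_mem' := fun s _ ⟨x, a, b⟩ => ⟨s • x, a.const_smul s, by simpa using b.const_smul s⟩

theorem idn {t : ℂ} (h : t ≠ 0) (k : ℕ) : ((-1) ^ (k + 1) * t⁻¹) • io ((C t⁻¹ * X + 1) ^ k * X ^ (k + 1)) =
    T t (io ((C (-t⁻¹) * X + 1) ^ (k + 1) * X ^ k)) := by
  have b := congrArg C (inv_mul_cancel₀ h)
  rw [C_mul, C_1] at b
  rw [Tp, ← map_smul, taylor_mul, taylor_pow, map_add, taylor_mul, taylor_pow, taylor_X, taylor_C, taylor_one,
    smul_eq_C_mul, C_neg, C_mul, C_pow, C_neg, C_1]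
  refine congrArg io ?_
  generalize C t⁻¹ = s at b ⊢
  generalize C t = t at b ⊢
  rw [show -s * (X + t) + 1 = -1 * s * X by linear_combination -b, show s * X + 1 = s * (X + t) by
    linear_combination -b, mul_pow s]
  ring

theorem mix {z : ℂ} (h : z ≠ 0) : Dense (W z : Set E) := dn fun k => by
  have t : Tendsto (fun n : ℕ => (n * z)⁻¹) atTop (𝓝 0) := by
    simpa [mul_comm] using (tendsto_inv_atTop_nhds_zero_nat (𝕜 := ℂ)).mul_const z⁻¹
  have u := ((cont (k + 1) k).tendsto _).comp t.neg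
  have v := (t.const_mul ((-1) ^ (k + 1))).smul (((cont k (k + 1)).tendsto _).comp t)
  rw [mul_zero, zero_smul] at v
  rw [neg_zero, C_0, zero_mul, zero_add, one_pow, one_mul, ie] at u
  exact ⟨_, u, v.congr' ((eventually_ne_atTop 0).mono fun n a => idn (mul_ne_zero (Nat.cast_ne_zero.2 a) h) k)⟩

theorem hyp {z : ℂ} (h : z ≠ 0) : ∃ y, Dense (range fun n => (T z)^[n] y) := by
  have : SeparableSpace E := isSeparable_univ_iff.1 (((countable_range e).isSeparable.span (R := ℂ)).closure.mono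
    fun x _ => dn (fun k => Submodule.subset_span (mem_range_self k)) x)
  obtain ⟨y, a⟩ := (dense_biInter_of_isOpen (f := fun V => ⋃ n : ℕ, T (n * z) ⁻¹' V) (fun V a => isOpen_iUnion fun n =>
    (isOpen_of_mem_countableBasis a).preimage (T _).continuous) (countable_countableBasis E) fun V a =>
    dense_iff_inter_open.2 fun U b c => by
      obtain ⟨u, p, x, q, r⟩ := (mix h).inter_open_nonempty U b c
      have o := isOpen_of_mem_countableBasis a
      obtain ⟨v, s, y, t, l⟩ := (mix (neg_ne_zero.2 h)).inter_open_nonempty V o (nonempty_of_mem_countableBasis a)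
      obtain ⟨n, i, j⟩ := (((q.add l).eventually_mem (b.mem_nhds (by simpa))).and ((r.add t).eventually_mem
        (o.mem_nhds (by simpa)))).exists
      exact ⟨_, i, mem_iUnion.2 ⟨n, by simpa [← ContinuousLinearMap.comp_apply, ← Ta, T0] using j⟩⟩).nonempty
  refine ⟨y, (isBasis_countableBasis E).dense_iff.2 fun V b _ => ?_⟩
  obtain ⟨n, c⟩ := mem_iUnion.1 (mem_iInter₂.1 a V b)
  exact ⟨_, c, n, Ti ..⟩

theorem cnt {c : ℂ} {r : ℝ} (h : 0 < r) (s : Finset ℂ) {g : ℂ → ℂ} {M : ℝ} (d : Differentiable ℂ g)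
    (a : ∀ z ∈ s, g z = 0 ∧ ‖z - c‖ ≤ r) (b : ∀ z ∈ sphere c (3 * r), ‖g z‖ ≤ M) : 2 ^ s.card * ‖g c‖ ≤ M := by
  classical
  induction s using Finset.induction_on generalizing g M with
  | empty =>
    simpa using Complex.norm_le_of_forall_mem_frontier_norm_le (U := ball c (3 * r)) isBounded_ball d.diffContOnCl
      (by rwa [frontier_ball c (by positivity)]) (subset_closure (mem_ball_self (by positivity)))
  | insert u s n ih =>
    have p := a u (by simp)
    have q : ∀ z, g z = (z - u) * dslope g u z := fun z => by simpa [p.1] using (sub_smul_dslope g u z).symm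
    have := ih (g := dslope g u) (M := M / (2 * r)) (differentiableOn_univ.1 ((Complex.differentiableOn_dslope
      univ_mem).2 d.differentiableOn)) (fun z t => ⟨(mul_eq_zero.1 ((q z).symm.trans (a z (by simp [t])).1)).resolve_left
      (sub_ne_zero.2 fun l => n (l ▸ t)), (a z (by simp [t])).2⟩) fun z t => by
        have := b z t
        rw [q, norm_mul] at this
        rw [le_div_iff₀' (by positivity)]
        refine le_trans (mul_le_mul_of_nonneg_right ?_ (norm_nonneg _)) this
        linarith [mem_sphere_iff_norm.1 t, p.2, norm_sub_le_norm_sub_add_norm_sub z u c]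
    rw [le_div_iff₀ (by positivity)] at this
    rw [Finset.card_insert_of_notMem n, q, norm_mul, norm_sub_rev, pow_succ]
    nlinarith [mul_le_mul_of_nonneg_right p.2 (show 0 ≤ 2 ^ s.card * ‖dslope g u c‖ by positivity)]

theorem zero {v : E} (h : ‖v - e 1‖ < 1 / 8) : ∃ s, ‖s‖ ≤ 1 ∧ T s v 0 = 0 := by
  by_contra! n
  have a : ∀ s, ‖s‖ ≤ 1 → ‖T s v 0 - s‖ < 1 / 2 := fun s p => by
    have := (Tb s (v - e 1)).trans (mul_le_mul_of_nonneg_right h.le (Real.exp_pos _).le)
    rw [map_sub, ← ie, Tp, pow_one, taylor_X, map_add, ← pow_one X, ie, ← mul_one (C s), ← smul_eq_C_mul, map_smul,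
      ← pow_zero X, ie] at this
    simp only [e, lp.coeFn_sub, lp.coeFn_add, lp.coeFn_smul, Pi.sub_apply, Pi.add_apply, Pi.smul_apply] at this
    have b := (Real.exp_le_exp.2 (Real.sqrt_le_one.2 p)).trans_lt Real.exp_one_lt_three
    simp at this
    linarith
  have d := fun s => ((lp.evalCLM ℂ _ 1 0).differentiableAt.comp s (Td v s))
  have := Complex.norm_le_of_forall_mem_frontier_norm_le (f := fun s => (T s v 0)⁻¹) (C := 2) isBounded_ball
    (DifferentiableOn.diffContOnCl fun s p => ((d s).inv (n s (by simpa [closure_ball (0 : ℂ) one_ne_zero] using p))).differentiableWithinAt)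
    (fun s p => by
      have q : ‖s‖ = 1 := by simpa [frontier_ball] using p
      rw [norm_inv, inv_le_comm₀ (norm_pos_iff.2 (n s q.le)) two_pos]
      linarith [a s q.le, norm_sub_norm_le s (T s v 0), norm_sub_rev s (T s v 0)])
    (subset_closure (mem_ball_self (x := (0 : ℂ)) one_pos))
  rw [norm_inv, inv_le_comm₀ (norm_pos_iff.2 (n 0 (by simp))) two_pos] at this
  linarith [a 0 (by simp), show ‖T 0 v 0 - 0‖ = ‖T 0 v 0‖ by simp]

theorem nc (y : E) : ∃ z ≠ 0, ¬Dense (range fun n => (T z)^[n] y) := by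
  have k : ∀ z, Dense (range fun n => (T z)^[n] y) → ∀ N : ℕ, ∃ n ≥ N, ∃ s, ‖s‖ ≤ 1 ∧ T (s + n * z) y 0 = 0 :=
    fun z h N => by
      have : Nontrivial E := ⟨_, 0, fun h => by simpa using congrArg (· 0) (show lp.single 1 0 1 = (0 : E) from h)⟩
      obtain ⟨_, a, ⟨n, rfl⟩, b⟩ := (h.sdiff_finite ((finite_lt_nat N).image fun n => (T z)^[n] y)).inter_open_nonempty
        _ isOpen_ball (nonempty_ball.2 (show (0 : ℝ) < 1 / 8 by norm_num))
      exact ⟨n, not_lt.1 fun c => b ⟨n, c, rfl⟩, by simpa [Ta, Ti] using zero (mem_ball_iff_norm.1 a)⟩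
  by_contra! h
  obtain ⟨c, hc⟩ : ∃ c, T c y 0 ≠ 0 := by
    by_contra! a
    obtain ⟨_, p, n, rfl⟩ := (h 1 one_ne_zero).inter_open_nonempty _ (isOpen_ne_fun (lp.evalCLM ℂ _ 1 0).continuous
      continuous_const) ⟨lp.single 1 0 1, (one_ne_zero : (1 : ℂ) ≠ 0)⟩
    exact p ((congrArg (fun v : E => v 0) (Ti 1 n y)).trans (a _))
  have g := norm_pos_iff.2 hc
  set R := 9 + ‖c‖ with hR
  have r : 0 < R := by positivity
  obtain ⟨L, hL⟩ := pow_unbounded_of_one_lt ((‖y‖ / ‖T c y 0‖ + 1) * Real.exp (2 * √R)) one_lt_two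
  let Z := fun j : ℕ => {a | T a y 0 = 0 ∧ ‖a - c‖ ≤ R * 4 ^ j}
  have z : ∀ j, (Z j).encard ≤ (L * 2 ^ j : ℕ) := fun j => by
    by_contra a
    obtain ⟨t, p, q⟩ := exists_subset_encard_eq (not_le.1 a).le
    lift t to Finset ℂ using finite_of_encard_eq_coe q
    have f : (1 : ℝ) ≤ 4 ^ j := one_le_pow₀ (by norm_num)
    have := cnt (g := fun z => T z y 0) (c := c) (r := R * 4 ^ j) (M := ‖y‖ * Real.exp (2 * √R) ^ 2 ^ j)
      (by positivity) t (fun s => ((lp.evalCLM ℂ _ 1 0).differentiableAt.comp s (Td y s) :)) p fun u v =>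
      (Tb u y).trans (mul_le_mul_of_nonneg_left (by
        rw [← Real.exp_nat_mul, Real.exp_le_exp, Real.sqrt_le_left (by positivity), mul_pow, mul_pow, Real.sq_sqrt r.le,
          Nat.cast_pow, ← pow_mul, mul_comm j, pow_mul]
        have := norm_le_norm_add_norm_sub' u c
        rw [mem_sphere_iff_norm.1 v] at this
        norm_num
        nlinarith [norm_nonneg c]) (norm_nonneg _))
    rw [show t.card = L * 2 ^ j from Nat.cast_injective (R := ℕ∞) (by rw [← q, encard_coe_eq_coe_finsetCard]), pow_mul, ← le_div_iff₀ g, mul_div_right_comm] at this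
    have b := pow_lt_pow_left₀ hL (by positivity) (show 2 ^ j ≠ 0 by positivity)
    rw [mul_pow] at b
    have := le_self_pow₀ (show 1 ≤ ‖y‖ / ‖T c y 0‖ + 1 from le_add_of_nonneg_left (by positivity))
      (show 2 ^ j ≠ 0 by positivity)
    nlinarith [show 0 < Real.exp (2 * √R) ^ 2 ^ j by positivity]
  have m : ∑' j, volume (⋃ a ∈ Z j, closedBall (a.im / a.re) (4 / 4 ^ j)) ≠ ⊤ := by
    refine ne_top_of_le_ne_top ?_ (ENNReal.tsum_le_tsum (g := fun j => ENNReal.ofReal (8 * L * (1 / 2) ^ j)) fun j =>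
      (measure_biUnion_le _ (finite_of_encard_le_coe (z j)).countable _).trans ?_)
    · exact (summable_geometric_two.mul_left _).tsum_ofReal_ne_top
    simp only [Real.volume_closedBall, ENNReal.tsum_set_const]
    refine (mul_le_mul_left (ENat.toENNReal_le.2 (z j)) _).trans_eq ?_
    rw [ENat.toENNReal_coe, ← ENNReal.ofReal_natCast, ← ENNReal.ofReal_mul (by positivity),
      show (4 : ℝ) ^ j = 2 ^ j * 2 ^ j by rw [← mul_pow]; norm_num]
    congr 1
    rw [one_div, inv_pow]
    push_cast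
    field_simp
    ring
  obtain ⟨τ, t, b⟩ := Measure.exists_mem_of_measure_ne_zero_of_ae (s := Icc (0 : ℝ) 1) (by simp)
    (ae_restrict_of_ae (ae_eventually_notMem m))
  obtain ⟨N, b⟩ := eventually_atTop.1 b
  obtain ⟨n, p, s, q, u⟩ := k (1 + τ * .I) (h _ fun l => by simpa using congrArg Complex.re l) (4 ^ (N + 1))
  have o : 4 ≤ n := le_trans (Nat.le_self_pow (by simp) 4) p
  have l : (4 : ℝ) ^ Nat.log 4 n ≤ n := mod_cast Nat.pow_log_le_self 4 (by omega)
  have i : (n : ℝ) < 4 ^ (Nat.log 4 n + 1) := mod_cast Nat.lt_pow_succ_log_self (by norm_num) n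
  have f : (1 : ℝ) ≤ 4 ^ Nat.log 4 n := one_le_pow₀ (by norm_num)
  have o' : (4 : ℝ) ≤ n := mod_cast o
  refine b (Nat.log 4 n) (by linarith [Nat.le_log_of_pow_le (by norm_num) p]) (mem_iUnion₂.2 ⟨_, ⟨u, ?_⟩, ?_⟩)
  · have : ‖1 + τ * Complex.I‖ ≤ 2 := (norm_add_le _ _).trans (by simp [abs_of_nonneg t.1]; linarith [t.2])
    have := (norm_sub_le _ c).trans (add_le_add_left (norm_add_le s (n * (1 + τ * Complex.I))) _)
    rw [norm_mul, Complex.norm_natCast] at this
    rw [pow_succ] at i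
    nlinarith [norm_nonneg c]
  have x := abs_le.1 ((Complex.abs_re_le_norm s).trans q)
  have x' := abs_le.1 ((Complex.abs_im_le_norm s).trans q)
  have v : 0 < s.re + n := by linarith
  have : dist τ ((s.im + n * τ) / (s.re + n)) ≤ 4 / n := by
    rw [Real.dist_eq, show τ - _ = (τ * s.re - s.im) / (s.re + n) by field_simp; ring, abs_div, abs_of_pos v,
      div_le_div_iff₀ v (by linarith)]
    nlinarith [abs_le.2 (show -2 ≤ τ * s.re - s.im ∧ τ * s.re - s.im ≤ 2 by constructor <;> nlinarith [t.1, t.2])]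
  simpa using this.trans (div_le_div_of_nonneg_left (by norm_num) (by positivity) l)

end

end Pool.Agent.H.MP_2d5ed4_an
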